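import Pool.Agent.KS6_17.WI.Sub

/-!
# The chain inequality for `|P|^q`, every `q > 0`
-/

open MeasureTheory Filter Topology Complex
open scoped ENNReal

noncomputable section

namespace Pool.Agent.KS6_17.WI

open Pool.Agent.Helper873.Ep

lemma wc_one (L : ℕ → ℝ) (k : ℕ) : wc L 1 k = (wa L k)⁻¹ := by
  unfold wc
  exact Real.rpow_neg_one _

/-- Lower bound at a smaller radius, all exponents. -/
lemma lowerq_aux (L : ℕ → ℝ) (p q : ℝ) (hq : 0 < q) (g : ℂ → ℂ)
    (hg : ContinuousOn g (Metric.ball 0 1)) (k : ℕ) (τ : ℝ) (hτ : τ ∈ Set.Ico (0 : ℝ) 1) :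
    ENNReal.ofReal (wc L p k * Real.circleAverage (fun z => ‖g z‖ ^ q) 0 (τ * rho k))
      ≤ normEp (polarMeasure (nu L p)) q g ^ q := by
  have hR0 : 0 ≤ τ * rho k := mul_nonneg hτ.1 (rho_pos k).le
  have hR1 : τ * rho k < 1 := by nlinarith [hτ.1, hτ.2, rho_pos k, rho_lt_one k]
  have hcs : ContinuousOn g (Metric.sphere 0 (τ * rho k)) := by
    apply hg.mono
    intro z hz
    rw [mem_sphere_zero_iff_norm] at hz
    rw [mem_ball_zero_iff, hz]
    exact hR1
  have hcq : ContinuousOn (fun z => ‖g z‖ ^ q) (Metric.sphere 0 (τ * rho k)) :=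
    hcs.norm.rpow_const fun _ _ => Or.inr hq.le
  rw [ENNReal.ofReal_mul (wc_pos L p k).le,
    ← lintegral_lam_eq _ _ hR0 hcq (fun z => Real.rpow_nonneg (norm_nonneg _) _)]
  have h1 : ENNReal.ofReal (wc L p k) * ∫⁻ θ, ENNReal.ofReal
      (‖g (((τ * rho k : ℝ) : ℂ) * Complex.exp (θ * Complex.I))‖ ^ q) ∂lam
      = ENNReal.ofReal (wc L p k) *
      ∫⁻ θ, ‖g (τ * ((rho k : ℂ) * Complex.exp (θ * Complex.I)))‖ₑ ^ q ∂lam := by
    congr 1
    apply lintegral_congr
    intro θ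
    have harg : ((τ * rho k : ℝ) : ℂ) * Complex.exp (θ * Complex.I)
        = τ * ((rho k : ℂ) * Complex.exp (θ * Complex.I)) := by
      push_cast; ring
    rw [harg, ← ENNReal.ofReal_rpow_of_nonneg (norm_nonneg _) hq.le, ofReal_norm]
  rw [h1]
  have h4 : ENNReal.ofReal (wc L p k) *
      ∫⁻ θ, ‖g (τ * ((rho k : ℂ) * Complex.exp (θ * Complex.I)))‖ₑ ^ q ∂lam
      ≤ ∑' k, ENNReal.ofReal (wc L p k) *
      ∫⁻ θ, ‖g (τ * ((rho k : ℂ) * Complex.exp (θ * Complex.I)))‖ₑ ^ q ∂lam :=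
    ENNReal.le_tsum k
  have h5 : Mp (polarMeasure (nu L p)) q g τ ≤ normEp (polarMeasure (nu L p)) q g := by
    unfold normEp
    exact le_iSup₂_of_le τ hτ le_rfl
  refine h4.trans ?_
  have h6 := ENNReal.rpow_le_rpow h5 hq.le
  rw [Mp_eq L p q g hg τ hτ, ← ENNReal.rpow_mul, one_div, inv_mul_cancel₀ hq.ne',
    ENNReal.rpow_one] at h6
  exact h6

/-- Lower bound, all exponents. -/
lemma lowerq (L : ℕ → ℝ) (p q : ℝ) (hq : 0 < q) (g : ℂ → ℂ)
    (hg : ContinuousOn g (Metric.ball 0 1)) (k : ℕ)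
    (hfin : normEp (polarMeasure (nu L p)) q g < ⊤) :
    wc L p k * Real.circleAverage (fun z => ‖g z‖ ^ q) 0 (rho k)
      ≤ (normEp (polarMeasure (nu L p)) q g).toReal ^ q := by
  have h1 : ∀ n, wc L p k * Real.circleAverage (fun z => ‖g z‖ ^ q) 0 (rho n * rho k)
      ≤ (normEp (polarMeasure (nu L p)) q g).toReal ^ q := by
    intro n
    have h2 := lowerq_aux L p q hq g hg k (rho n) ⟨(rho_pos n).le, rho_lt_one n⟩
    rw [← ENNReal.ofReal_toReal hfin.ne,
      ENNReal.ofReal_rpow_of_nonneg ENNReal.toReal_nonneg hq.le] at h2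
    exact (ENNReal.ofReal_le_ofReal_iff
      (Real.rpow_nonneg ENNReal.toReal_nonneg _)).mp h2
  have h3 : ContinuousOn (Real.circleAverage (fun z => ‖g z‖ ^ q) 0) (Set.Ico 0 1) := by
    apply _root_.Real.ContinuousOn.circleAverage
    · apply ContinuousOn.rpow_const
      · apply ContinuousOn.norm
        apply hg.mono
        intro z hz
        simp only [sub_zero, Set.mem_ofPred_eq, Set.mem_Ico] at hz
        rw [mem_ball_zero_iff]
        exact hz.2
      · intro _ _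
        exact Or.inr hq.le
    · intro r hr
      exact hr.1
  have h4 : Tendsto (fun n => rho n * rho k) atTop (𝓝[Set.Ico 0 1] (rho k)) := by
    rw [tendsto_nhdsWithin_iff]
    refine ⟨?_, Eventually.of_forall fun n => ?_⟩
    · simpa using rho_tendsto.mul_const (rho k)
    · exact ⟨mul_nonneg (rho_pos n).le (rho_pos k).le, by
        nlinarith [rho_pos n, rho_pos k, rho_lt_one n, rho_lt_one k]⟩
  have h5 := ((h3 (rho k) ⟨(rho_pos k).le, rho_lt_one k⟩).tendsto.comp h4).const_mul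
    (wc L p k)
  exact le_of_tendsto' h5 h1

/-- `|x + 1|^q ≤ K |x|^q + 2`, where `K` depends on `q` only. -/
lemma exists_const (q : ℝ) (hq : 0 < q) : ∃ K : ℝ, 0 < K ∧
    ∀ x : ℂ, ‖x + 1‖ ^ q ≤ K * ‖x‖ ^ q + 2 := by
  obtain ⟨θ, hθ0, hθ⟩ : ∃ θ : ℝ, 0 < θ ∧ (1 + θ) ^ q ≤ 2 := by
    have h1 : Tendsto (fun θ : ℝ => (1 + θ) ^ q) (𝓝[>] 0) (𝓝 ((1 + 0) ^ q)) := by
      apply Tendsto.mono_left _ nhdsWithin_le_nhds
      apply Tendsto.rpow_const
      · exact tendsto_const_nhds.add tendsto_id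
      · right; exact hq.le
    rw [add_zero, Real.one_rpow] at h1
    obtain ⟨θ, h2, h3⟩ := ((h1.eventually_lt_const one_lt_two).and
      self_mem_nhdsWithin).exists
    exact ⟨θ, h3, h2.le⟩
  refine ⟨(1 + 1 / θ) ^ q, by positivity, fun x => ?_⟩
  have h0 : ‖x + 1‖ ≤ ‖x‖ + 1 := by
    refine (norm_add_le _ _).trans ?_
    rw [norm_one]
  have hx := norm_nonneg x
  by_cases hxθ : ‖x‖ ≤ θ
  · have h1 : ‖x + 1‖ ^ q ≤ (1 + θ) ^ q :=
      Real.rpow_le_rpow (norm_nonneg _) (by linarith) hq.le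
    have h2 : 0 ≤ (1 + 1 / θ) ^ q * ‖x‖ ^ q := by positivity
    linarith
  · push Not at hxθ
    have h1 : ‖x + 1‖ ≤ (1 + 1 / θ) * ‖x‖ := by
      have : 1 ≤ 1 / θ * ‖x‖ := by
        rw [one_div, inv_mul_eq_div, le_div_iff₀ hθ0]
        linarith
      linarith
    have h2 : ‖x + 1‖ ^ q ≤ ((1 + 1 / θ) * ‖x‖) ^ q :=
      Real.rpow_le_rpow (norm_nonneg _) h1 hq.le
    rw [Real.mul_rpow (by positivity) hx] at h2
    linarith

/-- `|exp (s w)| ^ q = exp (Re w)` when `s q = 1`. -/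
lemma norm_exp_rpow (s q : ℝ) (hsq : s * q = 1) (w : ℂ) :
    ‖Complex.exp (s * w)‖ ^ q = Real.exp w.re := by
  rw [Complex.norm_exp, Complex.re_ofReal_mul, ← Real.exp_mul]
  congr 1
  calc s * w.re * q = (s * q) * w.re := by ring
    _ = w.re := by rw [hsq, one_mul]

lemma contOn_pow (q : ℝ) (hq : 0 < q) (g : ℂ → ℂ) (S : Set ℂ) (hg : ContinuousOn g S) :
    ContinuousOn (fun z => ‖g z‖ ^ q) S :=
  hg.norm.rpow_const fun _ _ => Or.inr hq.le

/-- The chain inequality. -/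
lemma chainq (d : Data) (s q : ℝ) (hq : 0 < q) (hsq : s * q = 1) (K : ℝ)
    (hK : ∀ x : ℂ, ‖x + 1‖ ^ q ≤ K * ‖x‖ ^ q + 2) (hK0 : 0 < K) (P : Polynomial ℂ)
    (hfin : normEp (polarMeasure (nu d.L 1)) q
      (fun z => P.eval z * Complex.exp (s * d.F z) - 1) < ⊤)
    (hP : K * (normEp (polarMeasure (nu d.L 1)) q
      (fun z => P.eval z * Complex.exp (s * d.F z) - 1)).toReal ^ q ≤ 1) (k : ℕ) :
    Aq q P (k + 1) ≤ 3 * Real.exp 1 * 4 ^ (k + 1) + Aq q P (k + 2) / 8 := by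
  have hcF : ContinuousOn (fun z => Complex.exp (s * d.F z)) (Metric.ball 0 1) :=
    (cont_expF d s).continuousOn
  have hcg : ContinuousOn (fun z => P.eval z * Complex.exp (s * d.F z)) (Metric.ball 0 1) :=
    P.continuous.continuousOn.mul hcF
  have hcg1 : ContinuousOn (fun z => P.eval z * Complex.exp (s * d.F z) - 1)
      (Metric.ball 0 1) := hcg.sub continuousOn_const
  have hlow := lowerq d.L 1 q hq _ hcg1 (k + 1) hfin
  have hwa := wa_pos d.L (k + 1)
  have hwa1 := wa_ge_one d.L d.L_nonneg (k + 1)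
  rw [wc_one, inv_mul_le_iff₀ hwa] at hlow
  have hR := rho_pos (k + 1)
  have hsph : Metric.sphere (0 : ℂ) |rho (k + 1)| ⊆ Metric.ball 0 1 := by
    intro z hz
    rw [mem_sphere_zero_iff_norm, abs_of_pos hR] at hz
    rw [mem_ball_zero_iff, hz]
    exact rho_lt_one _
  have hcgq := contOn_pow q hq _ _ (hcg.mono hsph)
  have hcg1q := contOn_pow q hq _ _ (hcg1.mono hsph)
  have hi1 : CircleIntegrable (fun z => ‖P.eval z * Complex.exp (s * d.F z)‖ ^ q) 0
      (rho (k + 1)) := hcgq.circleIntegrable'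
  have hi2 : CircleIntegrable (fun z => ‖P.eval z * Complex.exp (s * d.F z) - 1‖ ^ q) 0
      (rho (k + 1)) := hcg1q.circleIntegrable'
  have hi2K : CircleIntegrable (fun z => K * ‖P.eval z * Complex.exp (s * d.F z) - 1‖ ^ q) 0
      (rho (k + 1)) := (continuousOn_const.mul hcg1q).circleIntegrable'
  have hB : Real.circleAverage (fun z => ‖P.eval z * Complex.exp (s * d.F z)‖ ^ q) 0
      (rho (k + 1)) ≤ 3 * wa d.L (k + 1) := by
    have h1 : Real.circleAverage (fun z => ‖P.eval z * Complex.exp (s * d.F z)‖ ^ q) 0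
        (rho (k + 1))
      ≤ Real.circleAverage (fun z => K * ‖P.eval z * Complex.exp (s * d.F z) - 1‖ ^ q + 2) 0
        (rho (k + 1)) := by
      apply Real.circleAverage_mono hi1 (hi2K.add (circleIntegrable_const _ _ _))
      intro z _
      have h2 := hK (P.eval z * Complex.exp (s * d.F z) - 1)
      rw [sub_add_cancel] at h2
      exact h2
    rw [Real.circleAverage_fun_add hi2K (circleIntegrable_const _ _ _),
      Real.circleAverage_const] at h1
    have h9 := Real.circleAverage_fun_smul (a := K)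
      (f := fun z => ‖P.eval z * Complex.exp (s * d.F z) - 1‖ ^ q) (c := 0)
      (R := rho (k + 1))
    simp only [smul_eq_mul] at h9
    rw [h9] at h1
    have h2 : K * Real.circleAverage
        (fun z => ‖P.eval z * Complex.exp (s * d.F z) - 1‖ ^ q) 0 (rho (k + 1))
        ≤ wa d.L (k + 1) := by
      calc _ ≤ K * (wa d.L (k + 1) * (normEp (polarMeasure (nu d.L 1)) q
            (fun z => P.eval z * Complex.exp (s * d.F z) - 1)).toReal ^ q) :=
            mul_le_mul_of_nonneg_left hlow hK0.le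
        _ = wa d.L (k + 1) * (K * (normEp (polarMeasure (nu d.L 1)) q
            (fun z => P.eval z * Complex.exp (s * d.F z) - 1)).toReal ^ q) := by ring
        _ ≤ wa d.L (k + 1) * 1 := mul_le_mul_of_nonneg_left hP hwa.le
        _ = _ := mul_one _
    linarith
  -- pointwise bound
  set U : ℝ := 2 ^ (k + 3) * Aq q P (k + 2) with hU
  have hU0 : 0 ≤ U := by
    have := Aq_nonneg q P (k + 2)
    positivity
  have hpt : ∀ z ∈ Metric.sphere (0 : ℂ) |rho (k + 1)|, ‖P.eval z‖ ^ q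
      ≤ Real.exp (1 - d.L (k + 1)) * ‖P.eval z * Complex.exp (s * d.F z)‖ ^ q
        + U * (1 - Real.exp (((d.G (k + 1)).eval z).re - d.L (k + 1))) := by
    intro z hz
    rw [mem_sphere_zero_iff_norm, abs_of_pos hR] at hz
    have h1 : ‖P.eval z‖ ^ q ≤ U := sup_le_Aq q hq P (k + 1) z hz.le
    have h2 := re_G_le_F d (k + 1) z hz.le
    have h3 := d.re_le (k + 1) z hz.le
    have h4 : Real.exp (((d.G (k + 1)).eval z).re - d.L (k + 1)) ≤ 1 := by
      rw [Real.exp_le_one_iff]; linarith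
    have h5 : Real.exp (((d.G (k + 1)).eval z).re - d.L (k + 1))
        ≤ Real.exp (1 - d.L (k + 1)) * Real.exp (d.F z).re := by
      rw [← Real.exp_add]
      apply Real.exp_le_exp.mpr
      linarith
    have hPq : 0 ≤ ‖P.eval z‖ ^ q := Real.rpow_nonneg (norm_nonneg _) _
    rw [norm_mul, Real.mul_rpow (norm_nonneg _) (norm_nonneg _), norm_exp_rpow s q hsq]
    have h6 : ‖P.eval z‖ ^ q * Real.exp (((d.G (k + 1)).eval z).re - d.L (k + 1))
        ≤ ‖P.eval z‖ ^ q * (Real.exp (1 - d.L (k + 1)) * Real.exp (d.F z).re) :=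
      mul_le_mul_of_nonneg_left h5 hPq
    have h7 : ‖P.eval z‖ ^ q * (1 - Real.exp (((d.G (k + 1)).eval z).re - d.L (k + 1)))
        ≤ U * (1 - Real.exp (((d.G (k + 1)).eval z).re - d.L (k + 1))) :=
      mul_le_mul_of_nonneg_right h1 (by linarith)
    calc ‖P.eval z‖ ^ q
        = ‖P.eval z‖ ^ q * Real.exp (((d.G (k + 1)).eval z).re - d.L (k + 1))
          + ‖P.eval z‖ ^ q * (1 - Real.exp (((d.G (k + 1)).eval z).re - d.L (k + 1))) := by ring
      _ ≤ ‖P.eval z‖ ^ q * (Real.exp (1 - d.L (k + 1)) * Real.exp (d.F z).re)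
          + U * (1 - Real.exp (((d.G (k + 1)).eval z).re - d.L (k + 1))) := add_le_add h6 h7
      _ = _ := by ring
  have hi3 : CircleIntegrable (fun z => Real.exp (1 - d.L (k + 1)) *
      ‖P.eval z * Complex.exp (s * d.F z)‖ ^ q) 0 (rho (k + 1)) :=
    (continuousOn_const.mul hcgq).circleIntegrable'
  have hi4 : CircleIntegrable (fun z => U *
      (1 - Real.exp (((d.G (k + 1)).eval z).re - d.L (k + 1)))) 0 (rho (k + 1)) := by
    apply ci
    have := continuous_re_eval (d.G (k + 1))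
    fun_prop
  have h8 : Aq q P (k + 1) ≤ Real.circleAverage (fun z =>
      Real.exp (1 - d.L (k + 1)) * ‖P.eval z * Complex.exp (s * d.F z)‖ ^ q
        + U * (1 - Real.exp (((d.G (k + 1)).eval z).re - d.L (k + 1)))) 0 (rho (k + 1)) :=
    Real.circleAverage_mono (ci (cont_pow q hq P) _ _) (hi3.add hi4) hpt
  rw [Real.circleAverage_fun_add hi3 hi4] at h8
  have h9 := Real.circleAverage_fun_smul (a := Real.exp (1 - d.L (k + 1)))
      (f := fun z => ‖P.eval z * Complex.exp (s * d.F z)‖ ^ q) (c := 0) (R := rho (k + 1))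
  have h10 := Real.circleAverage_fun_smul (a := U)
      (f := fun z => (1 - Real.exp (((d.G (k + 1)).eval z).re - d.L (k + 1)))) (c := 0)
      (R := rho (k + 1))
  simp only [smul_eq_mul] at h9 h10
  rw [h9, h10] at h8
  have h11 : Real.exp (1 - d.L (k + 1)) *
      Real.circleAverage (fun z => ‖P.eval z * Complex.exp (s * d.F z)‖ ^ q) 0 (rho (k + 1))
      ≤ 3 * Real.exp 1 * 4 ^ (k + 1) := by
    calc _ ≤ Real.exp (1 - d.L (k + 1)) * (3 * wa d.L (k + 1)) :=
          mul_le_mul_of_nonneg_left hB (Real.exp_pos _).le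
      _ = 3 * (Real.exp (1 - d.L (k + 1)) * Real.exp (d.L (k + 1))) * 4 ^ (k + 1) := by
          unfold wa; ring
      _ = _ := by rw [← Real.exp_add]; congr 3; ring
  have h12 : U * Real.circleAverage (fun z =>
      (1 - Real.exp (((d.G (k + 1)).eval z).re - d.L (k + 1)))) 0 (rho (k + 1))
      ≤ Aq q P (k + 2) / 8 := by
    calc _ ≤ U * (1 / 2) ^ (k + 6) := mul_le_mul_of_nonneg_left (d.avg_le k) hU0
      _ = (2 ^ (k + 3) * (1 / 2) ^ (k + 3)) * Aq q P (k + 2) * (1 / 2) ^ 3 := by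
          rw [hU, show k + 6 = (k + 3) + 3 by ring, pow_add (1 / 2 : ℝ)]; ring
      _ = Aq q P (k + 2) / 8 := by
          rw [← mul_pow]; norm_num; ring
  linarith

lemma Aq_one_le (d : Data) (s q : ℝ) (hq : 0 < q) (hsq : s * q = 1) (K : ℝ)
    (hK : ∀ x : ℂ, ‖x + 1‖ ^ q ≤ K * ‖x‖ ^ q + 2) (hK0 : 0 < K) (P : Polynomial ℂ)
    (hfin : normEp (polarMeasure (nu d.L 1)) q
      (fun z => P.eval z * Complex.exp (s * d.F z) - 1) < ⊤)
    (hP : K * (normEp (polarMeasure (nu d.L 1)) q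
      (fun z => P.eval z * Complex.exp (s * d.F z) - 1)).toReal ^ q ≤ 1) :
    ‖P.eval 0‖ ^ q ≤ 24 * Real.exp 1 := by
  have h1 : ∀ M k : ℕ, Aq q P (k + 1) ≤ 6 * Real.exp 1 * 4 ^ (k + 1)
      + Sb P ^ q * (1 / 8) ^ M := by
    intro M
    induction M with
    | zero =>
      intro k
      have := Aq_le_Sb q hq P (k + 1)
      have h2 : (0 : ℝ) ≤ 6 * Real.exp 1 * 4 ^ (k + 1) := by positivity
      simp only [pow_zero, mul_one]
      linarith
    | succ M ih =>
      intro k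
      have h2 := chainq d s q hq hsq K hK hK0 P hfin hP k
      have h3 := ih (k + 1)
      have h4 : (4 : ℝ) ^ (k + 1 + 1) = 4 * 4 ^ (k + 1) := by ring
      have h5 : (1 / 8 : ℝ) ^ (M + 1) = (1 / 8) ^ M / 8 := by ring
      rw [h4] at h3
      rw [h5]
      have h6 : Aq q P (k + 1 + 1) = Aq q P (k + 2) := rfl
      rw [h6] at h3
      linarith
  have h2 : Tendsto (fun M : ℕ => 6 * Real.exp 1 * 4 ^ (0 + 1)
      + Sb P ^ q * (1 / 8 : ℝ) ^ M) atTop
      (𝓝 (6 * Real.exp 1 * 4 ^ (0 + 1) + Sb P ^ q * 0)) := by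
    apply Tendsto.const_add
    apply Tendsto.const_mul
    exact tendsto_pow_atTop_nhds_zero_of_lt_one (by norm_num) (by norm_num)
  have h3 := ge_of_tendsto' h2 fun M => h1 M 0
  refine (zero_le_Aq q hq P 1).trans ?_
  have h4 : Aq q P (0 + 1) = Aq q P 1 := rfl
  rw [h4] at h3
  norm_num at h3
  linarith

lemma approx_inv (d : Data) (s : ℝ) (hs : 0 < s) (ε : ℝ) (hε : 0 < ε) :
    ∃ Q : Polynomial ℂ, ∀ z : ℂ, ‖z‖ ≤ rho 0 →
      ‖Q.eval z * Complex.exp (s * d.F z) - 1‖ ≤ ε := by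
  obtain ⟨n, hn⟩ := ((Bd_tendsto d s 0).eventually_le_const hε).exists
  obtain ⟨P, hP⟩ := exp_poly (Polynomial.C (-(s : ℂ)) * d.G n) ((1 / 2) ^ n) (by positivity)
  refine ⟨P, fun z hz => (Bd_spec d s hs n P ?_ 0 z hz).trans hn⟩
  intro w hw
  have := hP w hw
  rw [Polynomial.eval_mul, Polynomial.eval_C, neg_mul] at this
  exact this

lemma add_rpow_le (q : ℝ) (hq : 0 < q) (a b : ℝ) (ha : 0 ≤ a) (hb : 0 ≤ b) :
    (a + b) ^ q ≤ 2 ^ q * (a ^ q + b ^ q) := by
  have h1 : a + b ≤ 2 * max a b := by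
    linarith [le_max_left a b, le_max_right a b]
  have hm : 0 ≤ max a b := ha.trans (le_max_left _ _)
  have h2 : (a + b) ^ q ≤ (2 * max a b) ^ q := Real.rpow_le_rpow (by linarith) h1 hq.le
  rw [Real.mul_rpow (by norm_num) hm] at h2
  refine h2.trans (mul_le_mul_of_nonneg_left ?_ (by positivity))
  rcases max_cases a b with ⟨h, _⟩ | ⟨h, _⟩
  · rw [h]; linarith [Real.rpow_nonneg hb q]
  · rw [h]; linarith [Real.rpow_nonneg ha q]

lemma val_zero (d : Data) (s q : ℝ) (hs : 0 < s) (hq : 0 < q) (hsq : s * q = 1)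
    (P : ℕ → Polynomial ℂ)
    (h : Tendsto (fun n => Real.circleAverage
      (fun z => ‖(P n).eval z * Complex.exp (s * d.F z) - 1‖ ^ q) 0 (rho 0)) atTop (𝓝 0))
    (ε : ℝ) (hε : 0 < ε) :
    ∀ᶠ n in atTop, ‖(P n).eval 0 * Complex.exp (s * d.F 0) - 1‖ ≤ ε := by
  have hR := rho_pos 0
  set m : ℝ := Real.exp (-(Sb (d.G 0) + 1)) with hm
  have hm0 : 0 < m := Real.exp_pos _
  have hFm : ∀ z : ℂ, ‖z‖ ≤ rho 0 → m ≤ Real.exp (d.F z).re := by
    intro z hz
    apply Real.exp_le_exp.mpr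
    have h1 := re_G_le_F d 0 z hz
    have h2 := Sb_bound (d.G 0) z (hz.trans (rho_lt_one 0).le)
    have h3 := (Complex.abs_re_le_norm ((d.G 0).eval z)).trans h2
    rw [abs_le] at h3
    linarith
  set C : ℝ := m⁻¹ * 2 ^ q * Real.exp (d.F 0).re with hC
  have hC0 : 0 < C := by positivity
  obtain ⟨ε', hε'0, hε'1, hε'2⟩ : ∃ ε' : ℝ, 0 < ε' ∧ ε' ≤ ε / 2 ∧
      C * (ε' ^ q + ε' ^ q) ≤ (ε / 2) ^ q := by
    have h1 : Tendsto (fun x : ℝ => C * (x ^ q + x ^ q)) (𝓝[>] 0)
        (𝓝 (C * ((0 : ℝ) ^ q + 0 ^ q))) := by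
      apply Tendsto.mono_left _ nhdsWithin_le_nhds
      apply Tendsto.const_mul
      exact (tendsto_id.rpow_const (Or.inr hq.le)).add (tendsto_id.rpow_const (Or.inr hq.le))
    rw [Real.zero_rpow hq.ne', add_zero, mul_zero] at h1
    have h2 : Tendsto (fun x : ℝ => x) (𝓝[>] 0) (𝓝 0) :=
      Tendsto.mono_left tendsto_id nhdsWithin_le_nhds
    obtain ⟨x, hx1, hx2, hx3⟩ := ((h1.eventually_le_const
      (by positivity : (0 : ℝ) < (ε / 2) ^ q)).and
      ((h2.eventually_le_const (by positivity : (0 : ℝ) < ε / 2)).and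
      self_mem_nhdsWithin)).exists
    exact ⟨x, hx3, hx2, hx1⟩
  obtain ⟨Q, hQ⟩ := approx_inv d s hs ε' hε'0
  filter_upwards [h.eventually_le_const (Real.rpow_pos_of_pos hε'0 q)] with n hn
  have hcF : ContinuousOn (fun z => Complex.exp (s * d.F z)) (Metric.ball 0 1) :=
    (cont_expF d s).continuousOn
  have hcg1 : ContinuousOn (fun z => (P n).eval z * Complex.exp (s * d.F z) - 1)
      (Metric.ball 0 1) := ((P n).continuous.continuousOn.mul hcF).sub continuousOn_const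
  have hsph : Metric.sphere (0 : ℂ) |rho 0| ⊆ Metric.ball 0 1 := by
    intro z hz
    rw [mem_sphere_zero_iff_norm, abs_of_pos hR] at hz
    rw [mem_ball_zero_iff, hz]
    exact rho_lt_one _
  have hcg1q := contOn_pow q hq _ _ (hcg1.mono hsph)
  have hi2 : CircleIntegrable (fun z => ‖(P n).eval z * Complex.exp (s * d.F z) - 1‖ ^ q) 0
      (rho 0) := hcg1q.circleIntegrable'
  have hi3 : CircleIntegrable (fun z => (m⁻¹ * 2 ^ q) *
      (‖(P n).eval z * Complex.exp (s * d.F z) - 1‖ ^ q + ε' ^ q)) 0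
      (rho 0) := (continuousOn_const.mul (hcg1q.add continuousOn_const)).circleIntegrable'
  have h1 : ‖((P n) - Q).eval 0‖ ^ q ≤ m⁻¹ * 2 ^ q * (ε' ^ q + ε' ^ q) := by
    refine (zero_le_Aq q hq _ 0).trans ?_
    have h2 : Aq q ((P n) - Q) 0 ≤ Real.circleAverage (fun z => (m⁻¹ * 2 ^ q) *
        (‖(P n).eval z * Complex.exp (s * d.F z) - 1‖ ^ q + ε' ^ q)) 0 (rho 0) := by
      apply Real.circleAverage_mono (ci (cont_pow q hq _) _ _) hi3
      intro z hz
      rw [mem_sphere_zero_iff_norm, abs_of_pos hR] at hz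
      have h3 := hFm z hz.le
      have h4 : ((P n) - Q).eval z * Complex.exp (s * d.F z)
          = ((P n).eval z * Complex.exp (s * d.F z) - 1)
            - (Q.eval z * Complex.exp (s * d.F z) - 1) := by
        rw [Polynomial.eval_sub]; ring
      have h5 : ‖((P n) - Q).eval z * Complex.exp (s * d.F z)‖ ^ q
          ≤ 2 ^ q * (‖(P n).eval z * Complex.exp (s * d.F z) - 1‖ ^ q + ε' ^ q) := by
        rw [h4]
        calc _ ≤ (‖(P n).eval z * Complex.exp (s * d.F z) - 1‖ + ε') ^ q := by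
              apply Real.rpow_le_rpow (norm_nonneg _) _ hq.le
              exact (norm_sub_le _ _).trans (by linarith [hQ z hz.le])
          _ ≤ _ := add_rpow_le q hq _ _ (norm_nonneg _) hε'0.le
      rw [norm_mul, Real.mul_rpow (norm_nonneg _) (norm_nonneg _), norm_exp_rpow s q hsq] at h5
      have h6 : ‖((P n) - Q).eval z‖ ^ q * m
          ≤ ‖((P n) - Q).eval z‖ ^ q * Real.exp (d.F z).re :=
        mul_le_mul_of_nonneg_left h3 (Real.rpow_nonneg (norm_nonneg _) _)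
      show ‖((P n) - Q).eval z‖ ^ q ≤ m⁻¹ * 2 ^ q *
        (‖(P n).eval z * Complex.exp (s * d.F z) - 1‖ ^ q + ε' ^ q)
      rw [mul_assoc, ← div_eq_inv_mul, le_div_iff₀ hm0]
      exact h6.trans h5
    refine h2.trans ?_
    have h9 := Real.circleAverage_fun_smul (a := m⁻¹ * 2 ^ q)
      (f := fun z => ‖(P n).eval z * Complex.exp (s * d.F z) - 1‖ ^ q + ε' ^ q) (c := 0)
      (R := rho 0)
    simp only [smul_eq_mul] at h9
    rw [h9, Real.circleAverage_fun_add hi2 (circleIntegrable_const _ _ _),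
      Real.circleAverage_const]
    apply mul_le_mul_of_nonneg_left _ (by positivity)
    linarith
  have h2 : ‖((P n) - Q).eval 0 * Complex.exp (s * d.F 0)‖ ≤ ε / 2 := by
    have h3 : ‖((P n) - Q).eval 0 * Complex.exp (s * d.F 0)‖ ^ q ≤ (ε / 2) ^ q := by
      rw [norm_mul, Real.mul_rpow (norm_nonneg _) (norm_nonneg _), norm_exp_rpow s q hsq]
      refine le_trans ?_ hε'2
      calc _ ≤ m⁻¹ * 2 ^ q * (ε' ^ q + ε' ^ q) * Real.exp (d.F 0).re :=
            mul_le_mul_of_nonneg_right h1 (Real.exp_pos _).le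
        _ = _ := by rw [hC]; ring
    exact (Real.rpow_le_rpow_iff (norm_nonneg _) (by positivity) hq).mp h3
  have h3 : (P n).eval 0 * Complex.exp (s * d.F 0) - 1
      = ((P n) - Q).eval 0 * Complex.exp (s * d.F 0)
        + (Q.eval 0 * Complex.exp (s * d.F 0) - 1) := by
    rw [Polynomial.eval_sub]; ring
  rw [h3]
  refine (norm_add_le _ _).trans ?_
  have h4 := hQ 0 (by simpa using hR.le)
  linarith

/-- `exp (s F)` is not weakly invertible at the critical exponent `q = 1 / s`. -/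
theorem not_wi_crit (d : Data) (s q : ℝ) (hs : 0 < s) (hq : 0 < q) (hsq : s * q = 1) :
    ¬ ∃ P : ℕ → Polynomial ℂ, Tendsto (fun n => normEp (polarMeasure (nu d.L 1)) q
      (fun z => (P n).eval z * Complex.exp (s * d.F z) - 1)) atTop (𝓝 0) := by
  rintro ⟨P, hP⟩
  obtain ⟨K, hK0, hK⟩ := exists_const q hq
  -- the real sequence of norms to the power q tends to zero
  have hreal : Tendsto (fun n => (normEp (polarMeasure (nu d.L 1)) q
      (fun z => (P n).eval z * Complex.exp (s * d.F z) - 1)).toReal) atTop (𝓝 0) := by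
    have := (ENNReal.tendsto_toReal ENNReal.zero_ne_top).comp hP
    rw [ENNReal.toReal_zero] at this
    exact this
  have hrealq : Tendsto (fun n => (normEp (polarMeasure (nu d.L 1)) q
      (fun z => (P n).eval z * Complex.exp (s * d.F z) - 1)).toReal ^ q) atTop (𝓝 0) := by
    have := hreal.rpow_const (p := q) (Or.inr hq.le)
    rwa [Real.zero_rpow hq.ne'] at this
  have hKq : Tendsto (fun n => K * (normEp (polarMeasure (nu d.L 1)) q
      (fun z => (P n).eval z * Complex.exp (s * d.F z) - 1)).toReal ^ q) atTop (𝓝 0) := by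
    simpa using hrealq.const_mul K
  have hlt : ∀ᶠ n in atTop, normEp (polarMeasure (nu d.L 1)) q
      (fun z => (P n).eval z * Complex.exp (s * d.F z) - 1) < ⊤ :=
    hP.eventually_lt_const ENNReal.zero_lt_top
  have hbdd : ∀ᶠ n in atTop, ‖(P n).eval 0‖ ^ q ≤ 24 * Real.exp 1 := by
    filter_upwards [hKq.eventually_le_const one_pos, hlt] with n h1 h2
    exact Aq_one_le d s q hq hsq K hK hK0 (P n) h2 h1
  -- the averages on the first circle tend to zero
  have havg : Tendsto (fun n => Real.circleAverage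
      (fun z => ‖(P n).eval z * Complex.exp (s * d.F z) - 1‖ ^ q) 0 (rho 0)) atTop (𝓝 0) := by
    have h1 : Tendsto (fun n => wa d.L 0 * (normEp (polarMeasure (nu d.L 1)) q
      (fun z => (P n).eval z * Complex.exp (s * d.F z) - 1)).toReal ^ q) atTop (𝓝 0) := by
      simpa using hrealq.const_mul (wa d.L 0)
    refine tendsto_of_tendsto_of_tendsto_of_le_of_le' tendsto_const_nhds h1
      (Eventually.of_forall fun n => Real.circleAverage_nonneg_of_nonneg
        fun _ _ => Real.rpow_nonneg (norm_nonneg _) _) ?_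
    filter_upwards [hlt] with n hn
    have hcg1 : ContinuousOn (fun z => (P n).eval z * Complex.exp (s * d.F z) - 1)
        (Metric.ball 0 1) :=
      ((P n).continuous.continuousOn.mul (cont_expF d s).continuousOn).sub continuousOn_const
    have := lowerq d.L 1 q hq _ hcg1 0 hn
    rw [wc_one, inv_mul_le_iff₀ (wa_pos d.L 0)] at this
    exact this
  obtain ⟨ε, hε0, hε1, hε⟩ : ∃ ε : ℝ, 0 < ε ∧ ε < 1 ∧ 1 / 2 < (1 - ε) ^ q := by
    have h1 : Tendsto (fun x : ℝ => (1 - x) ^ q) (𝓝[>] 0) (𝓝 ((1 - 0) ^ q)) := by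
      apply Tendsto.mono_left _ nhdsWithin_le_nhds
      apply Tendsto.rpow_const
      · exact tendsto_const_nhds.sub tendsto_id
      · right; exact hq.le
    rw [sub_zero, Real.one_rpow] at h1
    have h2 : Tendsto (fun x : ℝ => x) (𝓝[>] 0) (𝓝 0) :=
      Tendsto.mono_left tendsto_id nhdsWithin_le_nhds
    obtain ⟨x, hx1, hx2, hx3⟩ := ((h1.eventually_const_lt
      (by norm_num : (1 : ℝ) / 2 < 1)).and
      ((h2.eventually_lt_const one_pos).and self_mem_nhdsWithin)).exists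
    exact ⟨x, hx3, hx2, hx1⟩
  obtain ⟨n, h1, h2⟩ := (hbdd.and (val_zero d s q hs hq hsq P havg ε hε0)).exists
  have h3 : 1 - ε ≤ ‖(P n).eval 0 * Complex.exp (s * d.F 0)‖ := by
    have : (1 : ℂ) = (P n).eval 0 * Complex.exp (s * d.F 0)
      - ((P n).eval 0 * Complex.exp (s * d.F 0) - 1) := by ring
    have h4 : ‖(1 : ℂ)‖ ≤ ‖(P n).eval 0 * Complex.exp (s * d.F 0)‖
        + ‖(P n).eval 0 * Complex.exp (s * d.F 0) - 1‖ := by
      calc ‖(1 : ℂ)‖ = ‖(P n).eval 0 * Complex.exp (s * d.F 0)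
        - ((P n).eval 0 * Complex.exp (s * d.F 0) - 1)‖ := by rw [← this]
        _ ≤ _ := norm_sub_le _ _
    rw [norm_one] at h4
    linarith
  have h4 : (1 - ε) ^ q ≤ ‖(P n).eval 0 * Complex.exp (s * d.F 0)‖ ^ q :=
    Real.rpow_le_rpow (by linarith) h3 hq.le
  rw [norm_mul, Real.mul_rpow (norm_nonneg _) (norm_nonneg _), norm_exp_rpow s q hsq] at h4
  have h5 : ‖(P n).eval 0‖ ^ q * Real.exp (d.F 0).re ≤ 24 * Real.exp 1 * Real.exp (-9) :=
    mul_le_mul h1 (Real.exp_le_exp.mpr d.F_zero) (Real.exp_pos _).le (by positivity)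
  have h6 : 24 * Real.exp 1 * Real.exp (-9) ≤ 1 / 2 := by
    have h7 : 24 * Real.exp 1 * Real.exp (-9) = 24 * Real.exp (-8) := by
      rw [mul_assoc, ← Real.exp_add]; norm_num
    rw [h7]
    have h8 : (2 : ℝ) ^ 8 ≤ Real.exp 8 := by
      have h9 : Real.exp 8 = Real.exp 1 ^ 8 := by
        rw [← Real.exp_nat_mul]; norm_num
      rw [h9]
      apply pow_le_pow_left₀ (by norm_num)
      linarith [Real.exp_one_gt_d9]
    rw [Real.exp_neg]
    have h9 : (Real.exp 8)⁻¹ ≤ (2 ^ 8)⁻¹ := inv_anti₀ (by positivity) h8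
    norm_num at h9 ⊢
    linarith
  linarith

end Pool.Agent.KS6_17.WI
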