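import Pool.Agent.KS6_17.WI.Chain

/-!
# Sharp thresholds for `exp (s F)`
-/

open MeasureTheory Filter Topology Complex
open scoped ENNReal

noncomputable section

namespace Pool.Agent.KS6_17.WI

open Pool.Agent.Helper873.Ep

lemma exists_high (d : Data) (k : ℕ) : ∃ z : ℂ, ‖z‖ ≤ 1 ∧
    d.L (k + 1) - 1 ≤ ((d.G (k + 1)).eval z).re := by
  by_contra hcon
  push Not at hcon
  have hR := rho_pos (k + 1)
  have h1 : Real.circleAverage (fun _ : ℂ => (1 / 2 : ℝ)) 0 (rho (k + 1))
      ≤ Real.circleAverage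
        (fun z => 1 - Real.exp (((d.G (k + 1)).eval z).re - d.L (k + 1))) 0
        (rho (k + 1)) := by
    apply Real.circleAverage_mono (circleIntegrable_const _ _ _)
    · apply ci
      have := continuous_re_eval (d.G (k + 1))
      fun_prop
    · intro z hz
      rw [mem_sphere_zero_iff_norm, abs_of_pos hR] at hz
      have h2 := hcon z (hz.le.trans (rho_lt_one _).le)
      have h3 : Real.exp (((d.G (k + 1)).eval z).re - d.L (k + 1)) ≤ Real.exp (-1) :=
        Real.exp_le_exp.mpr (by linarith)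
      have h4 : Real.exp (-1) ≤ 1 / 2 := by
        rw [Real.exp_neg, one_div]
        apply inv_anti₀ (by norm_num)
        linarith [Real.exp_one_gt_d9]
      linarith
  rw [Real.circleAverage_const] at h1
  have h2 := d.avg_le k
  have h3 : ((1 : ℝ) / 2) ^ (k + 6) ≤ (1 / 2) ^ 6 :=
    pow_le_pow_of_le_one (by norm_num) (by norm_num) (by omega)
  have h4 : ((1 : ℝ) / 2) ^ 6 < 1 / 2 := by norm_num
  linarith

lemma L_lin (d : Data) (k : ℕ) : 8 * ((k : ℝ) + 1) ≤ d.L (k + 1) := by
  have h1 := d.L_big 0 (k + 1) (by omega)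
  have h2 : 8 ≤ Sb (d.G 0) := by
    have h3 := d.F_near 0 0 (by simpa using (rho_pos 0).le)
    have h4 := (Complex.abs_re_le_norm _).trans h3
    rw [Complex.sub_re, abs_le] at h4
    have h5 := d.F_zero
    have h6 := Sb_bound (d.G 0) 0 (by simp)
    have h7 := (Complex.abs_re_le_norm ((d.G 0).eval 0)).trans h6
    rw [abs_le] at h7
    norm_num at h4
    linarith
  push_cast at h1
  nlinarith [k.cast_nonneg (α := ℝ)]

lemma L_quad (d : Data) (j : ℕ) : ((j : ℝ) + 2) * (8 * j + 7) ≤ d.L (j + 2) := by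
  obtain ⟨z, hz1, hz2⟩ := exists_high d j
  have h1 := d.L_big (j + 1) (j + 2) (by omega)
  have h2 := Sb_bound (d.G (j + 1)) z hz1
  have h3 := (Complex.re_le_norm ((d.G (j + 1)).eval z)).trans h2
  have h4 := L_lin d j
  have h5 : 8 * (j : ℝ) + 7 ≤ Sb (d.G (j + 1)) := by linarith
  refine le_trans ?_ h1
  push_cast
  exact mul_le_mul_of_nonneg_left h5 (by positivity)

/-- lower bound for circle averages of `|exp (s F)|^q`. -/
lemma avg_ge (d : Data) (s q : ℝ) (hq : 0 < q) (ht : 1 ≤ s * q) (k : ℕ) :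
    Real.exp (s * q * (d.L (k + 1) - 1)) * (1 - s * q * (1 / 2) ^ (k + 6))
      ≤ Real.circleAverage (fun z => ‖Complex.exp (s * d.F z)‖ ^ q) 0 (rho (k + 1)) := by
  have hR := rho_pos (k + 1)
  set t : ℝ := s * q with htdef
  have ht0 : 0 < t := by linarith
  have hsph : Metric.sphere (0 : ℂ) |rho (k + 1)| ⊆ Metric.ball 0 1 := by
    intro z hz
    rw [mem_sphere_zero_iff_norm, abs_of_pos hR] at hz
    rw [mem_ball_zero_iff, hz]
    exact rho_lt_one _
  have hcF : ContinuousOn (fun z => Complex.exp (s * d.F z)) (Metric.ball 0 1) :=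
    (cont_expF d s).continuousOn
  have hc1 := contOn_pow q hq _ _ (hcF.mono hsph)
  have hcG : Continuous fun z : ℂ =>
      (1 - Real.exp (((d.G (k + 1)).eval z).re - d.L (k + 1))) := by
    have := continuous_re_eval (d.G (k + 1))
    fun_prop
  have hpt : ∀ z ∈ Metric.sphere (0 : ℂ) |rho (k + 1)|,
      Real.exp (t * (d.L (k + 1) - 1)) * (1 + (-t) *
        (1 - Real.exp (((d.G (k + 1)).eval z).re - d.L (k + 1))))
      ≤ ‖Complex.exp (s * d.F z)‖ ^ q := by
    intro z hz
    rw [mem_sphere_zero_iff_norm, abs_of_pos hR] at hz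
    have h2 := re_G_le_F d (k + 1) z hz.le
    have h1 : ‖Complex.exp (s * d.F z)‖ ^ q = Real.exp (t * (d.F z).re) := by
      rw [Complex.norm_exp, Complex.re_ofReal_mul, ← Real.exp_mul]
      congr 1
      rw [htdef]; ring
    rw [h1]
    set x : ℝ := ((d.G (k + 1)).eval z).re - d.L (k + 1) with hx
    have h3 : 1 + t * (Real.exp x - 1) ≤ (1 + (Real.exp x - 1)) ^ t := by
      apply one_add_mul_self_le_rpow_one_add _ ht
      linarith [Real.exp_pos x]
    have h4 : (1 + (Real.exp x - 1)) ^ t = Real.exp (t * x) := by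
      rw [add_sub_cancel, ← Real.exp_mul]
      congr 1; ring
    rw [h4] at h3
    calc _ = Real.exp (t * (d.L (k + 1) - 1)) * (1 + t * (Real.exp x - 1)) := by ring
      _ ≤ Real.exp (t * (d.L (k + 1) - 1)) * Real.exp (t * x) :=
          mul_le_mul_of_nonneg_left h3 (Real.exp_pos _).le
      _ = Real.exp (t * (d.L (k + 1) - 1 + x)) := by rw [← Real.exp_add]; congr 1; ring
      _ ≤ Real.exp (t * (d.F z).re) := by
          apply Real.exp_le_exp.mpr
          apply mul_le_mul_of_nonneg_left _ ht0.le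
          linarith
  have h8 : Real.circleAverage (fun z => Real.exp (t * (d.L (k + 1) - 1)) * (1 + (-t) *
        (1 - Real.exp (((d.G (k + 1)).eval z).re - d.L (k + 1))))) 0 (rho (k + 1))
      ≤ Real.circleAverage (fun z => ‖Complex.exp (s * d.F z)‖ ^ q) 0 (rho (k + 1)) := by
    apply Real.circleAverage_mono _ hc1.circleIntegrable' hpt
    exact ci (by fun_prop) _ _
  have h9 := Real.circleAverage_fun_smul (a := Real.exp (t * (d.L (k + 1) - 1)))
      (f := fun z => (1 + (-t) *
        (1 - Real.exp (((d.G (k + 1)).eval z).re - d.L (k + 1))))) (c := 0)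
      (R := rho (k + 1))
  have h10 := Real.circleAverage_fun_smul (a := -t)
      (f := fun z => (1 - Real.exp (((d.G (k + 1)).eval z).re - d.L (k + 1)))) (c := 0)
      (R := rho (k + 1))
  have h11 : Real.circleAverage (fun z => (1 + (-t) *
        (1 - Real.exp (((d.G (k + 1)).eval z).re - d.L (k + 1))))) 0 (rho (k + 1))
      = 1 + (-t) * Real.circleAverage
        (fun z => (1 - Real.exp (((d.G (k + 1)).eval z).re - d.L (k + 1)))) 0
        (rho (k + 1)) := by
    rw [Real.circleAverage_fun_add (circleIntegrable_const _ _ _) (ci (by fun_prop) _ _),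
      Real.circleAverage_const]
    simp only [smul_eq_mul] at h10
    rw [h10]
  simp only [smul_eq_mul] at h9
  rw [h9, h11] at h8
  refine le_trans ?_ h8
  apply mul_le_mul_of_nonneg_left _ (Real.exp_pos _).le
  have := mul_le_mul_of_nonneg_left (d.avg_le k) ht0.le
  linarith

/-- `exp (s F)` is not in `E^q` when `s q > 1`. -/
theorem not_mem (d : Data) (s q : ℝ) (hq : 0 < q) (ht : 1 < s * q) :
    ¬ MemEp (polarMeasure (nu d.L 1)) q (fun z => Complex.exp (s * d.F z)) := by
  rintro ⟨_, hfin⟩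
  set N : ℝ := (normEp (polarMeasure (nu d.L 1)) q
    (fun z => Complex.exp (s * d.F z))).toReal ^ q with hN
  set t : ℝ := s * q with htdef
  have ht0 : 0 < t := by linarith
  have hN0 : 0 ≤ N := Real.rpow_nonneg ENNReal.toReal_nonneg _
  have h1 : ∀ k, Real.circleAverage (fun z => ‖Complex.exp (s * d.F z)‖ ^ q) 0 (rho k)
      ≤ wa d.L k * N := by
    intro k
    have := lowerq d.L 1 q hq _ (cont_expF d s).continuousOn k hfin
    rwa [wc_one, inv_mul_le_iff₀ (wa_pos d.L k)] at this
  -- a large constant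
  set D : ℝ := 2 * (N + 1) * Real.exp t with hD
  have hD0 : 0 < D := by positivity
  -- choose j
  obtain ⟨j, hj1, hj2⟩ : ∃ j : ℕ, t * (1 / 2) ^ (j + 7) ≤ 1 / 2 ∧
      |Real.log D| + Real.log 4 + 1 ≤ (t - 1) * (8 * j + 7) := by
    have h2 : Tendsto (fun j : ℕ => t * (1 / 2 : ℝ) ^ (j + 7)) atTop (𝓝 (t * 0)) := by
      apply Tendsto.const_mul
      exact (tendsto_add_atTop_iff_nat 7).mpr
        (tendsto_pow_atTop_nhds_zero_of_lt_one (by norm_num) (by norm_num))
    rw [mul_zero] at h2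
    have h3 : Tendsto (fun j : ℕ => (t - 1) * (8 * (j : ℝ) + 7)) atTop atTop := by
      apply Tendsto.const_mul_atTop (by linarith)
      apply tendsto_atTop_add_const_right
      exact tendsto_natCast_atTop_atTop.const_mul_atTop (by norm_num)
    exact ((h2.eventually_le_const (by norm_num : (0 : ℝ) < 1 / 2)).and
      (h3.eventually_ge_atTop _)).exists
  have h2 := avg_ge d s q hq ht.le (j + 1)
  rw [← htdef] at h2
  have h3 := h1 (j + 2)
  have h4 : Real.exp (t * (d.L (j + 2) - 1)) * (1 / 2) ≤ wa d.L (j + 2) * N := by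
    refine le_trans ?_ (h2.trans h3)
    apply mul_le_mul_of_nonneg_left _ (Real.exp_pos _).le
    have : j + 1 + 6 = j + 7 := by ring
    rw [this]
    linarith
  have h5 : Real.exp ((t - 1) * d.L (j + 2)) < D * 4 ^ (j + 2) := by
    have h6 : Real.exp (t * (d.L (j + 2) - 1))
        = Real.exp ((t - 1) * d.L (j + 2)) * Real.exp (d.L (j + 2)) * (Real.exp t)⁻¹ := by
      rw [← Real.exp_neg, ← Real.exp_add, ← Real.exp_add]; congr 1; ring
    rw [h6] at h4
    unfold wa at h4
    have h7 : 0 < Real.exp (d.L (j + 2)) := Real.exp_pos _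
    have h8 : 0 < Real.exp t := Real.exp_pos _
    have h9 : Real.exp ((t - 1) * d.L (j + 2)) * (Real.exp t)⁻¹ * (1 / 2)
        ≤ 4 ^ (j + 2) * N := by
      have h10 : (Real.exp ((t - 1) * d.L (j + 2)) * (Real.exp t)⁻¹ * (1 / 2))
          * Real.exp (d.L (j + 2)) ≤ (4 ^ (j + 2) * N) * Real.exp (d.L (j + 2)) := by
        calc _ = Real.exp ((t - 1) * d.L (j + 2)) * Real.exp (d.L (j + 2))
              * (Real.exp t)⁻¹ * (1 / 2) := by ring
          _ ≤ 4 ^ (j + 2) * Real.exp (d.L (j + 2)) * N := h4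
          _ = _ := by ring
      exact le_of_mul_le_mul_right h10 h7
    have h11 : Real.exp ((t - 1) * d.L (j + 2)) ≤ 2 * N * Real.exp t * 4 ^ (j + 2) := by
      calc Real.exp ((t - 1) * d.L (j + 2))
          = (Real.exp ((t - 1) * d.L (j + 2)) * (Real.exp t)⁻¹ * (1 / 2))
            * (2 * Real.exp t) := by field_simp
        _ ≤ (4 ^ (j + 2) * N) * (2 * Real.exp t) :=
            mul_le_mul_of_nonneg_right h9 (by positivity)
        _ = _ := by ring
    refine lt_of_le_of_lt h11 ?_
    rw [hD]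
    apply mul_lt_mul_of_pos_right _ (by positivity)
    apply mul_lt_mul_of_pos_right _ h8
    linarith
  have h6 : (t - 1) * d.L (j + 2) < Real.log D + (j + 2 : ℕ) * Real.log 4 := by
    have h7 := (Real.lt_log_iff_exp_lt (by positivity)).mpr h5
    rw [Real.log_mul hD0.ne' (by positivity), Real.log_pow] at h7
    exact h7
  have h7 := L_quad d j
  have h8 : (t - 1) * (((j : ℝ) + 2) * (8 * j + 7)) ≤ (t - 1) * d.L (j + 2) :=
    mul_le_mul_of_nonneg_left h7 (by linarith)
  have h9 : ((j : ℝ) + 2) * (|Real.log D| + Real.log 4 + 1)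
      ≤ ((j : ℝ) + 2) * ((t - 1) * (8 * j + 7)) :=
    mul_le_mul_of_nonneg_left hj2 (by positivity)
  have h10 := le_abs_self (Real.log D)
  have h11 := abs_nonneg (Real.log D)
  have hj0 : (0 : ℝ) ≤ j := j.cast_nonneg
  push_cast at h6
  nlinarith

/-- The sharp thresholds. -/
theorem thresholds : ∃ (μ : Measure ℂ) (F : ℂ → ℂ), IsSymmetric μ ∧
    DifferentiableOn ℂ F (Metric.ball 0 1) ∧
    ∀ s q : ℝ, 0 < s → 0 < q →
      (MemEp μ q (fun z => Complex.exp (s * F z)) ↔ s * q ≤ 1) ∧
      (WeaklyInvertible μ q (fun z => Complex.exp (s * F z)) ↔ s * q < 1) := by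
  obtain ⟨d⟩ := exists_data
  refine ⟨polarMeasure (nu d.L 1), d.F, isSymmetric d.L d.L_nonneg 1 le_rfl, d.F_diff,
    fun s q hs hq => ⟨⟨fun h => ?_, fun h => mem d 1 le_rfl s q hs hq h⟩,
      ⟨fun h => ?_, fun h => wi d 1 le_rfl s q hs hq h⟩⟩⟩
  · by_contra hcon
    push Not at hcon
    exact not_mem d s q hq hcon h
  · by_contra hcon
    push Not at hcon
    rcases eq_or_lt_of_le hcon with h1 | h1
    · exact not_wi_crit d s q hs hq h1.symm h.2
    · exact not_mem d s q hq h1 h.1

end Pool.Agent.KS6_17.WI
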