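import Pool.Graph.R_pool_sql_team_668148b0.Helper873.EpF

/-!
# A zero-free analytic majorant of `|P|^q`

For a polynomial `P`, a radius `R` and an exponent `q > 0` there is a function `h`, analytic in
`|z| < R` and continuous on `|z| ≤ R`, with `|P|^q ≤ |h|` on `|z| ≤ R` and equality on `|z| = R`.
-/

open MeasureTheory Filter Topology Complex
open scoped ENNReal

noncomputable section

namespace Pool.Agent.KS6_17.WI

open Pool.Agent.Helper873.Ep

lemma re_one_sub_nonneg (w z : ℂ) (R : ℝ) (hw : ‖w‖ * R ≤ 1) (hz : ‖z‖ ≤ R) :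
    0 ≤ (1 - w * z).re := by
  have h1 : (w * z).re ≤ ‖w * z‖ := Complex.re_le_norm _
  have h2 : ‖w * z‖ ≤ 1 := by
    rw [norm_mul]
    exact (mul_le_mul_of_nonneg_left hz (norm_nonneg _)).trans hw
  rw [Complex.sub_re, Complex.one_re]
  linarith

lemma re_one_sub_pos (w z : ℂ) (R : ℝ) (hR : 0 < R) (hw : ‖w‖ * R ≤ 1) (hz : ‖z‖ < R) :
    0 < (1 - w * z).re := by
  have h1 : (w * z).re ≤ ‖w * z‖ := Complex.re_le_norm _
  have h2 : ‖w * z‖ < 1 := by
    rw [norm_mul]
    rcases eq_or_lt_of_le (norm_nonneg w) with h | h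
    · rw [← h]; norm_num
    · exact (mul_lt_mul_of_pos_left hz h).trans_le hw
  rw [Complex.sub_re, Complex.one_re]
  linarith

/-- one factor -/
lemma factor_dcc (w : ℂ) (R q : ℝ) (hR : 0 < R) (hq : 0 < q) (hw : ‖w‖ * R ≤ 1) :
    DiffContOnCl ℂ (fun z : ℂ => (1 - w * z) ^ (q : ℂ)) (Metric.ball 0 R) := by
  constructor
  · intro z hz
    rw [mem_ball_zero_iff] at hz
    have h1 := re_one_sub_pos w z R hR hw hz
    apply DifferentiableAt.differentiableWithinAt
    apply DifferentiableAt.cpow_const (by fun_prop)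
    exact Or.inl h1
  · rw [closure_ball _ hR.ne']
    intro z hz
    rw [mem_closedBall_zero_iff] at hz
    have h1 := re_one_sub_nonneg w z R hw hz
    apply ContinuousAt.continuousWithinAt
    have h2 : ContinuousAt (fun x : ℂ => x ^ (q : ℂ)) (1 - w * z) :=
      Complex.continuousAt_cpow_const_of_re_pos (Or.inl h1) (by simpa using hq)
    exact ContinuousAt.comp (f := fun z : ℂ => 1 - w * z) h2 (by fun_prop)

lemma norm_reflect (a z : ℂ) (R : ℝ) (hR : 0 < R) (hz : ‖z‖ = R) :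
    R * ‖1 - (starRingEnd ℂ) a / R ^ 2 * z‖ = ‖z - a‖ := by
  have hR' : (R : ℂ) ≠ 0 := by exact_mod_cast hR.ne'
  have hzz : z * (starRingEnd ℂ) z = (R : ℂ) ^ 2 := by
    rw [Complex.mul_conj, Complex.normSq_eq_norm_sq, hz]; push_cast; ring
  have h1 : (R : ℂ) ^ 2 * (1 - (starRingEnd ℂ) a / R ^ 2 * z) = z * (starRingEnd ℂ) (z - a) := by
    rw [map_sub, mul_sub z, hzz]
    field_simp
  have h2 := congrArg norm h1
  rw [norm_mul, norm_mul, Complex.norm_conj, norm_pow, Complex.norm_real,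
    Real.norm_of_nonneg hR.le, hz] at h2
  have h3 : R * (R * ‖1 - (starRingEnd ℂ) a / R ^ 2 * z‖) = R * ‖z - a‖ := by
    rw [← h2]; ring
  exact mul_left_cancel₀ hR.ne' h3

lemma norm_reflect_le (a z : ℂ) (R : ℝ) (hR : 0 < R) (ha : ‖a‖ ≤ R) (hz : ‖z‖ ≤ R) :
    ‖z - a‖ ≤ R * ‖1 - (starRingEnd ℂ) a / R ^ 2 * z‖ := by
  have hR' : (R : ℂ) ≠ 0 := by exact_mod_cast hR.ne'
  have h0 : R * ‖1 - (starRingEnd ℂ) a / R ^ 2 * z‖ = ‖(R : ℂ) - (starRingEnd ℂ) a / R * z‖ := by
    have : (R : ℂ) - (starRingEnd ℂ) a / R * z = R * (1 - (starRingEnd ℂ) a / R ^ 2 * z) := by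
      field_simp
    rw [this, norm_mul, Complex.norm_real, Real.norm_of_nonneg hR.le]
  rw [h0]
  have key : ‖z - a‖ ^ 2 ≤ ‖(R : ℂ) - (starRingEnd ℂ) a / R * z‖ ^ 2 := by
    rw [← Complex.normSq_eq_norm_sq, ← Complex.normSq_eq_norm_sq, Complex.normSq_sub,
      Complex.normSq_sub]
    have h1 : ((R : ℂ) * (starRingEnd ℂ) ((starRingEnd ℂ) a / R * z)).re
        = (z * (starRingEnd ℂ) a).re := by
      have : (R : ℂ) * (starRingEnd ℂ) ((starRingEnd ℂ) a / R * z)
          = (starRingEnd ℂ) (z * (starRingEnd ℂ) a) := by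
        rw [map_mul, map_mul, map_div₀, Complex.conj_conj, Complex.conj_ofReal]
        field_simp
      rw [this, Complex.conj_re]
    rw [h1, map_mul, map_div₀, Complex.normSq_conj, Complex.normSq_ofReal]
    have ha2 : Complex.normSq a ≤ R ^ 2 := by
      rw [Complex.normSq_eq_norm_sq]
      exact pow_le_pow_left₀ (norm_nonneg _) ha 2
    have hz2 : Complex.normSq z ≤ R ^ 2 := by
      rw [Complex.normSq_eq_norm_sq]
      exact pow_le_pow_left₀ (norm_nonneg _) hz 2
    have h4 : Complex.normSq a / (R * R) * Complex.normSq z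
        = Complex.normSq a * Complex.normSq z / R ^ 2 := by ring
    rw [h4]
    have h5 : Complex.normSq z + Complex.normSq a
        ≤ R * R + Complex.normSq a * Complex.normSq z / R ^ 2 := by
      have hR2 : 0 < R ^ 2 := by positivity
      have h6 : 0 ≤ (R ^ 2 - Complex.normSq a) * (R ^ 2 - Complex.normSq z) :=
        mul_nonneg (by linarith) (by linarith)
      have h7 : R * R + Complex.normSq a * Complex.normSq z / R ^ 2
          - (Complex.normSq z + Complex.normSq a)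
          = (R ^ 2 - Complex.normSq a) * (R ^ 2 - Complex.normSq z) / R ^ 2 := by
        field_simp
        ring
      have h8 := div_nonneg h6 hR2.le
      linarith
    linarith
  exact le_of_sq_le_sq key (norm_nonneg _)

lemma exists_factor (a : ℂ) (R q : ℝ) (hR : 0 < R) (hq : 0 < q) :
    ∃ h : ℂ → ℂ, DiffContOnCl ℂ h (Metric.ball 0 R) ∧
      (∀ z : ℂ, ‖z‖ ≤ R → ‖z - a‖ ^ q ≤ ‖h z‖) ∧
      (∀ z : ℂ, ‖z‖ = R → ‖h z‖ = ‖z - a‖ ^ q) := by
  have hR' : (R : ℂ) ≠ 0 := by exact_mod_cast hR.ne'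
  by_cases ha : ‖a‖ ≤ R
  · have hw : ‖(starRingEnd ℂ) a / (R : ℂ) ^ 2‖ * R ≤ 1 := by
      rw [norm_div, Complex.norm_conj, norm_pow, Complex.norm_real, Real.norm_of_nonneg hR.le]
      have : ‖a‖ / R ^ 2 * R = ‖a‖ / R := by field_simp
      rw [this, div_le_one hR]
      exact ha
    have hn : ∀ z : ℂ, ‖((R : ℂ) ^ (q : ℂ)) * (1 - (starRingEnd ℂ) a / R ^ 2 * z) ^ (q : ℂ)‖
        = (R * ‖1 - (starRingEnd ℂ) a / R ^ 2 * z‖) ^ q := by
      intro z
      rw [norm_mul, Complex.norm_cpow_real, Complex.norm_cpow_real, Complex.norm_real,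
        Real.norm_of_nonneg hR.le, Real.mul_rpow hR.le (norm_nonneg _)]
    refine ⟨fun z => ((R : ℂ) ^ (q : ℂ)) * (1 - (starRingEnd ℂ) a / R ^ 2 * z) ^ (q : ℂ),
      ?_, ?_, ?_⟩
    · exact (factor_dcc _ R q hR hq hw).const_smul ((R : ℂ) ^ (q : ℂ))
    · intro z hz
      simp only []
      rw [hn]
      exact Real.rpow_le_rpow (norm_nonneg _) (norm_reflect_le a z R hR ha hz) hq.le
    · intro z hz
      simp only []
      rw [hn, norm_reflect a z R hR hz]
  · push Not at ha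
    have ha0 : a ≠ 0 := by
      intro h; rw [h, norm_zero] at ha; linarith
    have hna : 0 < ‖a‖ := norm_pos_iff.mpr ha0
    have hw : ‖a⁻¹‖ * R ≤ 1 := by
      rw [norm_inv, inv_mul_le_iff₀ hna]
      linarith
    have hn : ∀ z : ℂ, ‖((‖a‖ : ℂ) ^ (q : ℂ)) * (1 - a⁻¹ * z) ^ (q : ℂ)‖
        = ‖z - a‖ ^ q := by
      intro z
      rw [norm_mul, Complex.norm_cpow_real, Complex.norm_cpow_real, Complex.norm_real,
        Real.norm_of_nonneg hna.le, ← Real.mul_rpow hna.le (norm_nonneg _), ← norm_mul]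
      have : a * (1 - a⁻¹ * z) = a - z := by field_simp
      rw [this, norm_sub_rev]
    refine ⟨fun z => ((‖a‖ : ℂ) ^ (q : ℂ)) * (1 - a⁻¹ * z) ^ (q : ℂ), ?_, ?_, ?_⟩
    · exact (factor_dcc _ R q hR hq hw).const_smul ((‖a‖ : ℂ) ^ (q : ℂ))
    · intro z hz
      simp only []
      rw [hn]
    · intro z hz
      simp only []
      rw [hn]

lemma exists_majorant (P : Polynomial ℂ) (R q : ℝ) (hR : 0 < R) (hq : 0 < q) :
    ∃ h : ℂ → ℂ, DiffContOnCl ℂ h (Metric.ball 0 R) ∧
      (∀ z : ℂ, ‖z‖ ≤ R → ‖P.eval z‖ ^ q ≤ ‖h z‖) ∧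
      (∀ z : ℂ, ‖z‖ = R → ‖h z‖ = ‖P.eval z‖ ^ q) := by
  have hP : P.Splits := IsAlgClosed.splits P
  rw [hP.eq_prod_roots]
  generalize P.leadingCoeff = c
  generalize P.roots = s
  induction s using Multiset.induction with
  | empty =>
    refine ⟨fun _ => (‖c‖ ^ q : ℝ), diffContOnCl_const, ?_, ?_⟩
    · intro z _
      simp only [Multiset.map_zero, Multiset.prod_zero, mul_one, Polynomial.eval_C,
        Complex.norm_real]
      exact le_abs_self _
    · intro z _
      simp only [Multiset.map_zero, Multiset.prod_zero, mul_one, Polynomial.eval_C,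
        Complex.norm_real, Real.norm_eq_abs]
      exact abs_of_nonneg (Real.rpow_nonneg (norm_nonneg _) _)
  | cons a s ih =>
    obtain ⟨h1, hd1, hle1, heq1⟩ := ih
    obtain ⟨h2, hd2, hle2, heq2⟩ := exists_factor a R q hR hq
    have hev : ∀ z : ℂ, ‖(Polynomial.C c * ((a ::ₘ s).map fun a =>
        Polynomial.X - Polynomial.C a).prod).eval z‖ ^ q
        = ‖z - a‖ ^ q * ‖(Polynomial.C c * (s.map fun a =>
        Polynomial.X - Polynomial.C a).prod).eval z‖ ^ q := by
      intro z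
      rw [← Real.mul_rpow (norm_nonneg _) (norm_nonneg _), ← norm_mul]
      congr 2
      simp only [Multiset.map_cons, Multiset.prod_cons, Polynomial.eval_mul, Polynomial.eval_C,
        Polynomial.eval_sub, Polynomial.eval_X]
      ring
    refine ⟨fun z => h2 z * h1 z, ?_, ?_, ?_⟩
    · exact hd2.smul hd1
    · intro z hz
      rw [hev, norm_mul]
      exact mul_le_mul (hle2 z hz) (hle1 z hz) (Real.rpow_nonneg (norm_nonneg _) _)
        (norm_nonneg _)
    · intro z hz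
      rw [hev, norm_mul, heq2 z hz, heq1 z hz]

/-- Circle averages of `|P|^q`. -/
def Aq (q : ℝ) (P : Polynomial ℂ) (k : ℕ) : ℝ :=
  Real.circleAverage (fun z => ‖P.eval z‖ ^ q) 0 (rho k)

lemma cont_pow (q : ℝ) (hq : 0 < q) (P : Polynomial ℂ) :
    Continuous fun z : ℂ => ‖P.eval z‖ ^ q :=
  P.continuous.norm.rpow_const fun _ => Or.inr hq.le

lemma Aq_nonneg (q : ℝ) (P : Polynomial ℂ) (k : ℕ) : 0 ≤ Aq q P k :=
  Real.circleAverage_nonneg_of_nonneg fun _ _ => Real.rpow_nonneg (norm_nonneg _) _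

lemma Aq_le_Sb (q : ℝ) (hq : 0 < q) (P : Polynomial ℂ) (k : ℕ) : Aq q P k ≤ Sb P ^ q := by
  apply Real.circleAverage_mono_on_of_le_circle (ci (cont_pow q hq P) 0 _)
  intro z hz
  rw [mem_sphere_zero_iff_norm, abs_of_pos (rho_pos k)] at hz
  exact Real.rpow_le_rpow (norm_nonneg _) (Sb_bound P z (hz.le.trans (rho_lt_one k).le)) hq.le

lemma zero_le_Aq (q : ℝ) (hq : 0 < q) (P : Polynomial ℂ) (k : ℕ) :
    ‖P.eval 0‖ ^ q ≤ Aq q P k := by
  have hR := rho_pos k
  obtain ⟨h, hd, hle, heq⟩ := exists_majorant P (rho k) q hR hq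
  have h1 : Real.circleAverage (fun z => h z) 0 (rho k) = h 0 := by
    apply DiffContOnCl.circleAverage
    rw [abs_of_pos hR]; exact hd
  refine (hle 0 (by simpa using hR.le)).trans ?_
  rw [← h1]
  refine (norm_cavg_le _ _ _).trans (le_of_eq ?_)
  unfold Aq
  apply Real.circleAverage_congr_sphere
  intro z hz
  rw [mem_sphere_zero_iff_norm, abs_of_pos hR] at hz
  exact heq z hz

lemma sup_le_Aq (q : ℝ) (hq : 0 < q) (P : Polynomial ℂ) (k : ℕ) (z : ℂ) (hz : ‖z‖ ≤ rho k) :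
    ‖P.eval z‖ ^ q ≤ 2 ^ (k + 2) * Aq q P (k + 1) := by
  have hR := rho_pos (k + 1)
  have hzR : ‖z‖ < rho (k + 1) := hz.trans_lt (rho_lt_succ k)
  obtain ⟨h, hd, hle, heq⟩ := exists_majorant P (rho (k + 1)) q hR hq
  have h1 : Real.circleAverage (fun w => ((w - 0) / (w - z)) • h w) 0 (rho (k + 1))
      = h z := by
    apply DiffContOnCl.circleAverage_smul_div
    · rw [abs_of_pos hR]; exact hd
    · rw [mem_ball_zero_iff, abs_of_pos hR]
      exact hzR
  refine (hle z hzR.le).trans ?_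
  rw [← h1]
  refine (norm_cavg_le _ _ _).trans ?_
  unfold Aq
  have hsub : ∀ w ∈ Metric.sphere (0 : ℂ) |rho (k + 1)|, (1 / 2 : ℝ) ^ (k + 2) ≤ ‖w - z‖ := by
    intro w hw
    rw [mem_sphere_zero_iff_norm, abs_of_pos hR] at hw
    have h2 : ‖w‖ - ‖z‖ ≤ ‖w - z‖ := norm_sub_norm_le w z
    rw [← rho_succ_sub]
    linarith
  have h3 : (2 : ℝ) ^ (k + 2) * Real.circleAverage (fun z => ‖P.eval z‖ ^ q) 0 (rho (k + 1))
      = Real.circleAverage (fun z => 2 ^ (k + 2) * ‖P.eval z‖ ^ q) 0 (rho (k + 1)) := by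
    have := Real.circleAverage_fun_smul (a := (2 : ℝ) ^ (k + 2))
      (f := fun z => ‖P.eval z‖ ^ q) (c := 0) (R := rho (k + 1))
    simp only [smul_eq_mul] at this
    exact this.symm
  rw [h3]
  have hcs : ContinuousOn h (Metric.sphere (0 : ℂ) |rho (k + 1)|) := by
    have := hd.2
    rw [closure_ball _ hR.ne'] at this
    apply this.mono
    rw [abs_of_pos hR]
    exact Metric.sphere_subset_closedBall
  apply Real.circleAverage_mono
  · apply ContinuousOn.circleIntegrable'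
    apply ContinuousOn.norm
    refine ContinuousOn.fun_smul ?_ hcs
    apply ContinuousOn.div (by fun_prop) (by fun_prop)
    intro w hw h0
    have := hsub w hw
    rw [h0, norm_zero] at this
    have h4 : (0 : ℝ) < (1 / 2) ^ (k + 2) := by positivity
    linarith
  · apply ci
    exact (cont_pow q hq P).const_mul _
  · intro w hw
    have h4 := hsub w hw
    rw [mem_sphere_zero_iff_norm, abs_of_pos hR] at hw
    rw [norm_smul, norm_div, sub_zero, hw, heq w hw]
    apply mul_le_mul_of_nonneg_right _ (Real.rpow_nonneg (norm_nonneg _) _)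
    have h5 : (0 : ℝ) < (1 / 2) ^ (k + 2) := by positivity
    rw [div_le_iff₀ (by linarith)]
    have h6 : (2 : ℝ) ^ (k + 2) * (1 / 2) ^ (k + 2) = 1 := by
      rw [← mul_pow]; norm_num
    have h7 : (2 : ℝ) ^ (k + 2) * (1 / 2) ^ (k + 2) ≤ 2 ^ (k + 2) * ‖w - z‖ :=
      mul_le_mul_of_nonneg_left h4 (by positivity)
    linarith [(rho_lt_one (k + 1)).le]

end Pool.Agent.KS6_17.WI
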